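import Pool.Agent.H91.RD.Targets

/-!
# Elementary facts and the modules OUTU, INT
-/

open MeasureTheory Set Filter Topology Metric

namespace Pool.Agent.H62.RD

open Pool.Agent.H91.RD

/-- linear growth beats the square root -/
theorem big {a : ℝ} (ha : 0 < a) (C b : ℝ) : ∃ T > 0, ∀ t ≥ T, b + C * √t ≤ a * t := by
  set M : ℝ := (|C| + |b|) / a with hM
  have hM0 : 0 ≤ M := div_nonneg (by positivity) ha.le
  refine ⟨max 1 (M ^ 2), lt_of_lt_of_le one_pos (le_max_left _ _), fun t ht => ?_⟩
  have h1 : 1 ≤ t := (le_max_left _ _).trans ht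
  have h2 : M ^ 2 ≤ t := (le_max_right _ _).trans ht
  have h3 : 1 ≤ √t := by
    rw [show (1 : ℝ) = √1 by simp]
    exact Real.sqrt_le_sqrt h1
  have h4 : M ≤ √t := Real.le_sqrt_of_sq_le h2
  have h5 : √t * √t = t := Real.mul_self_sqrt (by linarith)
  have h6 : |C| + |b| = a * M := by
    rw [hM]
    field_simp
  have h7 : a * t = a * √t * √t := by rw [mul_assoc, h5]
  have h8 : (|C| + |b|) * √t ≤ a * t := by
    rw [h7, h6]
    apply mul_le_mul_of_nonneg_right _ (Real.sqrt_nonneg _)
    exact mul_le_mul_of_nonneg_left h4 ha.le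
  have h9 : b ≤ |b| * √t := by
    calc b ≤ |b| := le_abs_self b
      _ = |b| * 1 := (mul_one _).symm
      _ ≤ |b| * √t := mul_le_mul_of_nonneg_left h3 (abs_nonneg _)
  have h10 : C * √t ≤ |C| * √t := mul_le_mul_of_nonneg_right (le_abs_self C) (Real.sqrt_nonneg _)
  linarith [add_mul (|C|) (|b|) (√t)]

theorem outu : T_OUTU := by
  intro N c C t3 U I hG δ hδ
  obtain ⟨T, hT, hb⟩ := big hδ C ((c - δ) * t3 + C)
  have hC := hG.C0
  have ht3 := hG.t0
  refine ⟨t3 + max T C, by positivity, fun t ht x hx => ?_⟩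
  have hs : max T C ≤ t - t3 := by linarith
  have hsT : T ≤ t - t3 := (le_max_left _ _).trans hs
  have hsC : C ≤ t - t3 := (le_max_right _ _).trans hs
  rw [le_infDist hG.Une]
  intro y hy
  obtain ⟨p, hp, hyp⟩ := hG.up y hy
  have h1 : c * (t - t3) - C * √(t - t3) < dist p x := by
    by_contra hcon
    push Not at hcon
    have h2 := hG.expd t3 le_rfl (t - t3) hsC p hp x hcon
    rw [add_sub_cancel] at h2
    exact hx h2
  have h3 := hb (t - t3) hsT
  have h4 : dist p x ≤ dist y p + dist x y := by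
    calc dist p x ≤ dist p y + dist y x := dist_triangle _ _ _
      _ = dist y p + dist x y := by rw [dist_comm p y, dist_comm y x]
  nlinarith [h1, h3, h4, hyp]

theorem int : T_INT := by
  intro N c C t3 U I tn xn hG htn κ hκ hev t x
  obtain ⟨T, hT, hb⟩ := big hκ C ((c - κ) * (t3 - t) + 1 + C + ‖x‖)
  have hC := hG.C0
  have h1 := htn.eventually_ge_atTop (max T C + t3 - t)
  filter_upwards [hev, h1] with n hn1 hn2
  have hs : max T C ≤ tn n + t - t3 := by linarith
  have hsT : T ≤ tn n + t - t3 := (le_max_left _ _).trans hs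
  have hsC : C ≤ tn n + t - t3 := (le_max_right _ _).trans hs
  have h3 : infDist (xn n) U < (c - κ) * tn n + 1 := by linarith
  obtain ⟨y, hy, hxy⟩ := (infDist_lt_iff hG.Une).mp h3
  obtain ⟨p, hp, hyp⟩ := hG.up y hy
  have h4 : dist p (xn n + x) ≤ dist y p + dist (xn n) y + ‖x‖ := by
    calc dist p (xn n + x) ≤ dist p y + dist y (xn n) + dist (xn n) (xn n + x) :=
          dist_triangle4 _ _ _ _
      _ = dist y p + dist (xn n) y + ‖x‖ := by
          rw [dist_comm p y, dist_comm y (xn n), dist_self_add_right]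
  have h5 := hb _ hsT
  have h6 : dist p (xn n + x) ≤ c * (tn n + t - t3) - C * √(tn n + t - t3) := by
    nlinarith [h3, h4, h5, hyp, hxy]
  have h7 := hG.expd t3 le_rfl _ hsC p hp _ h6
  have h8 : t3 + (tn n + t - t3) = tn n + t := by ring
  rwa [h8] at h7

end Pool.Agent.H62.RD
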