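import Pool.Agent.H62.RD.Base

/-!
# Module IF2: exponential tail at the interface
-/

open MeasureTheory Set Filter Topology Metric

namespace Pool.Agent.H62.RD

open Pool.Agent.H91.RD

/-- pointwise consequence of `LimAt` -/
theorem LimAt.pt {N : ℕ} {u : ℝ → E N → ℝ} {tn : ℕ → ℝ} {xn : ℕ → E N} {w : ℝ → E N → ℝ}
    (h : LimAt u tn xn w) (t : ℝ) (x : E N) :
    Tendsto (fun n => u (tn n + t) (xn n + x)) atTop (𝓝 (w t x)) := by
  have hR : 0 < |t| + ‖x‖ + 1 := by positivity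
  have h1 := h (|t| + ‖x‖ + 1) hR
  have hm : ((t, x) : ℝ × E N) ∈ Icc (-(|t| + ‖x‖ + 1)) (|t| + ‖x‖ + 1) ×ˢ
      closedBall (0 : E N) (|t| + ‖x‖ + 1) := by
    refine ⟨⟨?_, ?_⟩, ?_⟩
    · show -(|t| + ‖x‖ + 1) ≤ t
      linarith [neg_abs_le t, norm_nonneg x]
    · show t ≤ |t| + ‖x‖ + 1
      linarith [le_abs_self t, norm_nonneg x]
    · show x ∈ closedBall (0 : E N) (|t| + ‖x‖ + 1)
      rw [mem_closedBall, dist_zero_right]
      linarith [abs_nonneg t]
  exact h1.tendsto_at hm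

theorem if2 (hTW : T_TW) : T_IF2 := by
  intro N c C t3 L U I u w tn xn qn ξn en e hC hG hT htn hlim hdir hen hq hL ε hε
  have hc := hG.c0
  have hC1 := hG.C0
  have hL0 : 0 ≤ L := dist_nonneg.trans (hL 0)
  have hε' : 0 < 2 * ε / c := by positivity
  obtain ⟨C1, hC1p, T0, hT0, hTW⟩ := hTW N c C t3 U I hC hG L hL0 (2 * ε / c) hε'
  refine ⟨C * Real.exp (c / 2 * C1), by positivity, T0, hT0, fun T hTT y => ?_⟩
  obtain ⟨T3, hT3, hb⟩ := hTW T hTT (‖y‖ + 1) (by positivity)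
  have l1 := LimAt.pt hlim (-T) y
  have l2 : Tendsto (fun n => C * Real.exp (-(c / 2 * (inner ℝ y (en n) + c * T
      - 2 * ε / c * (‖y‖ + T) - C1)))) atTop (𝓝 (C * Real.exp (-(c / 2 * (inner ℝ y e + c * T
      - 2 * ε / c * (‖y‖ + T) - C1))))) := by
    have h1 : Tendsto (fun n => (inner ℝ y (en n) : ℝ)) atTop (𝓝 (inner ℝ y e)) :=
      tendsto_const_nhds.inner hen
    have h2 : Continuous fun a : ℝ => C * Real.exp (-(c / 2 * (a + c * T
      - 2 * ε / c * (‖y‖ + T) - C1))) := by fun_prop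
    exact (h2.tendsto _).comp h1
  have hle : ∀ᶠ n in atTop, u (tn n + -T) (xn n + y) ≤ C * Real.exp (-(c / 2 * (inner ℝ y (en n)
      + c * T - 2 * ε / c * (‖y‖ + T) - C1))) := by
    filter_upwards [htn.eventually_ge_atTop (max T3 (t3 + T))] with n hn
    have h1 : T3 ≤ tn n := (le_max_left _ _).trans hn
    have h2 : t3 + T ≤ tn n := (le_max_right _ _).trans hn
    have h3 := hb (tn n) h1 (xn n) (qn n) (hq n) (hL n) (ξn n) (en n) (hdir n) y (by linarith)
    have h4 := hT (tn n + -T) (by linarith) (xn n + y)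
    rw [← sub_eq_add_neg] at h4 ⊢
    refine h4.trans ?_
    apply mul_le_mul_of_nonneg_left _ (by linarith)
    apply Real.exp_le_exp.mpr
    apply neg_le_neg
    exact mul_le_mul_of_nonneg_left h3 (by positivity)
  have h5 := le_of_tendsto_of_tendsto l1 l2 hle
  refine h5.trans (le_of_eq ?_)
  rw [mul_assoc, ← Real.exp_add]
  congr 2
  field_simp
  ring

end Pool.Agent.H62.RD
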