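import Pool.Agent.H62.RD.TW
import Pool.Agent.H62.RD.IF2

/-!
# Modules BH, FR, DEEP, IF1: geometry behind and ahead of the interface
-/

open MeasureTheory Set Filter Topology Metric

namespace Pool.Agent.H62.RD

open Pool.Agent.H91.RD

/-- directions at points close to a point far from `U` -/
theorem near_dir (hE0 : T_E0) (hE2 : T_E2) {N : ℕ} {c : ℝ} {U : Set (E N)} (hc : 0 < c)
    (hC : CondC U) {ε4 : ℝ} (hε : 0 < ε4) :
    ∃ δ2 > 0, ∃ T > 0, ∀ t ≥ T, ∀ x ξ e : E N, Dir U x ξ e → c / 2 * t ≤ infDist x U →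
      ∀ q, dist x q ≤ δ2 * t → (∃ ξ' e', Dir U q ξ' e') ∧
        ∀ ξ' e', Dir U q ξ' e' → ‖e - e'‖ ≤ ε4 := by
  obtain ⟨δ, hδ, R, hR, h⟩ := hE2 N U hC ε4 hε
  refine ⟨min (δ * (c / 2)) (c / 4), lt_min (by positivity) (by positivity), 2 * R / c,
    by positivity, fun t ht x ξ e hd hx q hq => ?_⟩
  have ht0 : 0 < t := lt_of_lt_of_le (by positivity) ht
  have hRt : R ≤ c / 2 * t := by
    rw [ge_iff_le, div_le_iff₀ hc] at ht
    linarith
  have h1 : min (δ * (c / 2)) (c / 4) * t ≤ c / 4 * t :=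
    mul_le_mul_of_nonneg_right (min_le_right _ _) ht0.le
  have h2 : min (δ * (c / 2)) (c / 4) * t ≤ δ * (c / 2) * t :=
    mul_le_mul_of_nonneg_right (min_le_left _ _) ht0.le
  have hpos : 0 < infDist q U := by
    have h3 : infDist x U ≤ infDist q U + dist x q := infDist_le_infDist_add_dist
    have h4 : 0 < c / 4 * t := by positivity
    linarith
  refine ⟨hE0 N U q hpos, fun ξ' e' hd' => ?_⟩
  apply h x ξ e q ξ' e' hd hd' (hRt.trans hx)
  calc dist x q ≤ δ * (c / 2) * t := hq.trans h2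
    _ = δ * (c / 2 * t) := by ring
    _ ≤ δ * infDist x U := mul_le_mul_of_nonneg_left hx hδ.le

theorem inner_dir_le {N : ℕ} {e e' : E N} {ε4 : ℝ} (h : ‖e - e'‖ ≤ ε4) (v : E N) :
    inner ℝ v e' ≤ inner ℝ v e + ε4 * ‖v‖ := by
  have h1 : (inner ℝ v e' : ℝ) = inner ℝ v e - inner ℝ v (e - e') := by
    rw [inner_sub_right]; ring
  have h2 := neg_abs_le (inner ℝ v (e - e') : ℝ)
  have h3 : |(inner ℝ v (e - e') : ℝ)| ≤ ‖v‖ * ‖e - e'‖ := abs_real_inner_le_norm _ _
  have h4 : ‖v‖ * ‖e - e'‖ ≤ ‖v‖ * ε4 := mul_le_mul_of_nonneg_left h (norm_nonneg _)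
  linarith

theorem inner_unit_ge {N : ℕ} {e e' : E N} {ε4 : ℝ} (he : ‖e‖ = 1) (h : ‖e - e'‖ ≤ ε4) :
    1 - ε4 ≤ inner ℝ e e' := by
  have h1 : (inner ℝ e e' : ℝ) = 1 - inner ℝ e (e - e') := by
    rw [inner_sub_right, real_inner_self_eq_norm_sq, he]; ring
  have h3 : |(inner ℝ e (e - e') : ℝ)| ≤ ‖e‖ * ‖e - e'‖ := abs_real_inner_le_norm _ _
  rw [he, one_mul] at h3
  have h4 := le_abs_self (inner ℝ e (e - e') : ℝ)
  linarith

theorem bh (hFL : T_FL) (hEX : T_EX) (hE0 : T_E0) (hE2 : T_E2) : T_BH := by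
  intro N c C t3 U I hC hG L hL ε hε
  have hc := hG.c0
  rcases le_or_gt 1 ε with hε1 | hε1
  · refine ⟨1, one_pos, 1, one_pos, 1, one_pos, fun t ht x hx hxU ξ e hd y hy hyt => ?_⟩
    exfalso
    have h1 := neg_le_inner_of_unit hd.unit y
    have h2 : ‖y‖ ≤ ε * ‖y‖ := le_mul_of_one_le_left (norm_nonneg _) hε1
    linarith
  obtain ⟨Ca, hCa, δa, hδa, Ta, hTa, hFa⟩ := hFL N c C t3 U I hC hG L hL ε hε
  obtain ⟨Cf, hCf, δf, hδf, Tf, hTf, hFf⟩ :=
    hFL N c C t3 U I hC hG 1 zero_le_one (ε / 2) (by positivity)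
  obtain ⟨δ2, hδ2, T2, hT2, hnd⟩ :=
    near_dir hE0 hE2 (U := U) hc hC (ε4 := ε / 8) (by positivity)
  obtain ⟨δe, hδe, Te, hTe, hEx⟩ :=
    hEX N c C t3 U I hC hG (min δ2 (δf / 2)) (lt_min hδ2 (by positivity))
  refine ⟨max Ca Cf, lt_max_of_lt_left hCa, min (min δa δe) (min (c / 2) (δf / 2)),
    lt_min (lt_min hδa hδe) (lt_min (by positivity) (by positivity)),
    max (max Ta Tf) (max T2 Te), lt_max_of_lt_left (lt_max_of_lt_left hTa), ?_⟩
  intro t ht x hx hxU ξ e hd y hy hyt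
  have ht1 : Ta ≤ t := ((le_max_left _ _).trans (le_max_left _ _)).trans ht
  have ht2 : Tf ≤ t := ((le_max_right _ _).trans (le_max_left _ _)).trans ht
  have ht3 : T2 ≤ t := ((le_max_left _ _).trans (le_max_right _ _)).trans ht
  have ht4 : Te ≤ t := ((le_max_right _ _).trans (le_max_right _ _)).trans ht
  have ht0 : 0 < t := lt_of_lt_of_le hTa ht1
  have hCa' : Ca ≤ max Ca Cf := le_max_left _ _
  have hCf' : Cf ≤ max Ca Cf := le_max_right _ _
  set δ := min (min δa δe) (min (c / 2) (δf / 2)) with hδ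
  have hd1 : δ ≤ δa := (min_le_left _ _).trans (min_le_left _ _)
  have hd2 : δ ≤ δe := (min_le_left _ _).trans (min_le_right _ _)
  have hd3 : δ ≤ c / 2 := (min_le_right _ _).trans (min_le_left _ _)
  have hd4 : δ ≤ δf / 2 := (min_le_right _ _).trans (min_le_right _ _)
  have hmul : ∀ a b : ℝ, a ≤ b → a * t ≤ b * t := fun a b h =>
    mul_le_mul_of_nonneg_right h ht0.le
  by_cases hxI : x ∈ I t
  · have hxe : (c - δe) * t ≤ infDist x U := (hmul _ _ (by linarith)).trans hxU
    have hxc : c / 2 * t ≤ infDist x U := (hmul _ _ (by linarith)).trans hxU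
    obtain ⟨r, hr0, hrt, hq, hq1⟩ := hEx t ht4 x hxI hxe ξ e hd
    have hr1 : r ≤ δ2 * t := hrt.trans (hmul _ _ (min_le_left _ _))
    have hr2 : r ≤ δf / 2 * t := hrt.trans (hmul _ _ (min_le_right _ _))
    have hdist : dist x (x + r • e) ≤ δ2 * t := by
      rw [dist_self_add_right, norm_smul, hd.unit, mul_one, Real.norm_eq_abs, abs_of_nonneg hr0]
      exact hr1
    obtain ⟨⟨ξ', e', hd'⟩, hall⟩ := hnd t ht3 x ξ e hd hxc (x + r • e) hdist
    have hee := hall ξ' e' hd'
    have h1 := inner_dir_le hee y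
    have h2 := inner_unit_ge hd.unit hee
    have hin : inner ℝ (y - r • e) e' = inner ℝ y e' - r * inner ℝ e e' := by
      rw [inner_sub_left, real_inner_smul_left]
    have hny : ‖y - r • e‖ ≤ ‖y‖ + r := by
      refine (norm_sub_le _ _).trans ?_
      rw [norm_smul, hd.unit, mul_one, Real.norm_eq_abs, abs_of_nonneg hr0]
    have hny0 : 0 ≤ ‖y‖ := norm_nonneg y
    have key := hFf t ht2 (x + r • e) hq hq1 ξ' e' hd' (y - r • e) (by
      rw [hin]
      have h3 : r * (1 - ε / 8) ≤ r * inner ℝ e e' := mul_le_mul_of_nonneg_left h2 hr0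
      have h4 : ε / 2 * ‖y - r • e‖ ≤ ε / 2 * (‖y‖ + r) :=
        mul_le_mul_of_nonneg_left hny (by positivity)
      have h5 : 0 ≤ ε * ‖y‖ := by positivity
      have h6 : 0 ≤ (1 - ε) * r := mul_nonneg (by linarith) hr0
      linarith [h1, h3, h4, h5, h6, hy, hCf']) (by
      calc ‖y - r • e‖ ≤ ‖y‖ + r := hny
        _ ≤ δf / 2 * t + δf / 2 * t := add_le_add (hyt.trans (hmul _ _ hd4)) hr2
        _ = δf * t := by ring)
    have hxy : x + r • e + (y - r • e) = x + y := by abel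
    rwa [hxy] at key
  · exact hFa t ht1 x hxI hx ξ e hd y (by linarith) (hyt.trans (hmul _ _ hd1))

theorem fr (hFL : T_FL) (hEX : T_EX) (hE0 : T_E0) (hE2 : T_E2) : T_FR := by
  intro N c C t3 U I hC hG L hL ε hε
  have hc := hG.c0
  rcases le_or_gt 1 ε with hε1 | hε1
  · refine ⟨1, one_pos, 1, one_pos, 1, one_pos, fun t ht x hx ξ e hd y hy hyt => ?_⟩
    exfalso
    have h1 := inner_le_of_unit hd.unit y
    have h2 : ‖y‖ ≤ ε * ‖y‖ := le_mul_of_one_le_left (norm_nonneg _) hε1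
    linarith
  obtain ⟨Cf, hCf, δf, hδf, Tf, hTf, hFf⟩ :=
    hFL N c C t3 U I hC hG 1 zero_le_one (ε / 2) (by positivity)
  obtain ⟨δ2, hδ2, T2, hT2, hnd⟩ :=
    near_dir hE0 hE2 (U := U) hc hC (ε4 := ε / 8) (by positivity)
  set κ := min (δ2 / 4) (δf / 4) with hκ
  have hκ0 : 0 < κ := lt_min (by positivity) (by positivity)
  obtain ⟨δe, hδe, Te, hTe, hEx⟩ := hEX N c C t3 U I hC hG κ hκ0
  set δo := min (δe / 2) (c / 2) with hδo
  have hδo0 : 0 < δo := lt_min (by positivity) (by positivity)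
  obtain ⟨To, hTo, hOU⟩ := outu N c C t3 U I hG δo hδo0
  set δ := min (δe / 4) (min (δ2 / 4) (δf / 4)) with hδ
  have hδ0 : 0 < δ := lt_min (by positivity) (lt_min (by positivity) (by positivity))
  set Tl1 := (L + 1) / δ with hTl1
  have hTl0 : 0 < Tl1 := div_pos (by linarith) hδ0
  refine ⟨Cf + 2 * (L + 1), by positivity, δ, hδ0,
    max (max t3 Tf) (max (max T2 Te) (max To Tl1)), ?_, ?_⟩
  · exact lt_max_of_lt_left (lt_max_of_lt_left hG.t0)
  intro t ht x hx ξ e hd y hy hyt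
  have ht1 : t3 ≤ t := ((le_max_left _ _).trans (le_max_left _ _)).trans ht
  have ht2 : Tf ≤ t := ((le_max_right _ _).trans (le_max_left _ _)).trans ht
  have ht3 : T2 ≤ t :=
    (((le_max_left _ _).trans (le_max_left _ _)).trans (le_max_right _ _)).trans ht
  have ht4 : Te ≤ t :=
    (((le_max_right _ _).trans (le_max_left _ _)).trans (le_max_right _ _)).trans ht
  have ht5 : To ≤ t :=
    (((le_max_left _ _).trans (le_max_right _ _)).trans (le_max_right _ _)).trans ht
  have ht6 : Tl1 ≤ t :=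
    (((le_max_right _ _).trans (le_max_right _ _)).trans (le_max_right _ _)).trans ht
  have ht0 : 0 < t := lt_of_lt_of_le hTf ht2
  have hLt : L + 1 ≤ δ * t := by
    rw [hTl1, div_le_iff₀ hδ0] at ht6
    linarith
  have hmul : ∀ a b : ℝ, a ≤ b → a * t ≤ b * t := fun a b h =>
    mul_le_mul_of_nonneg_right h ht0.le
  have hd1 : δ ≤ δe / 4 := min_le_left _ _
  have hd2 : δ ≤ δ2 / 4 := (min_le_right _ _).trans (min_le_left _ _)
  have hd3 : δ ≤ δf / 4 := (min_le_right _ _).trans (min_le_right _ _)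
  have hk1 : κ ≤ δ2 / 4 := min_le_left _ _
  have hk2 : κ ≤ δf / 4 := min_le_right _ _
  have ho1 : δo ≤ δe / 2 := min_le_left _ _
  have ho2 : δo ≤ c / 2 := min_le_right _ _
  by_contra hcon
  push Not at hcon
  have hxU := hOU t ht5 x hx
  have hxc : c / 2 * t ≤ infDist x U := (hmul _ _ (by linarith)).trans hxU
  obtain ⟨q, hqI, hqd⟩ := (infDist_lt_iff (hG.ne t ht1)).mp
    (show infDist (x + y) (I t) < L + 1 by linarith)
  set v := q - (x + y) with hv
  have hvn : ‖v‖ ≤ L + 1 := by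
    rw [hv, ← dist_eq_norm, dist_comm]
    exact hqd.le
  have hxq : dist x q ≤ ‖y‖ + (L + 1) := by
    have h1 : x - q = -(y + v) := by rw [hv]; abel
    rw [dist_eq_norm, h1, norm_neg]
    exact (norm_add_le _ _).trans (by linarith)
  have hqU : (c - δe) * t ≤ infDist q U := by
    have h3 : infDist x U ≤ infDist q U + dist x q := infDist_le_infDist_add_dist
    have h4 := hmul _ _ hd1
    have h5 := hmul _ _ ho1
    linarith [h3, h4, h5, hxq, hxU, hyt, hLt, mul_pos hδe ht0]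
  have hq2 : dist x q ≤ δ2 * t := by
    have h4 := hmul _ _ hd2
    linarith [h4, hxq, hyt, hLt, mul_pos hδ2 ht0]
  obtain ⟨⟨ξq, eq, hdq⟩, hallq⟩ := hnd t ht3 x ξ e hd hxc q hq2
  have heq := hallq ξq eq hdq
  obtain ⟨r, hr0, hrt, hq', hq'1⟩ := hEx t ht4 q hqI hqU ξq eq hdq
  have hxq' : dist x (q + r • eq) ≤ ‖y‖ + (L + 1) + r := by
    have h1 : dist q (q + r • eq) = r := by
      rw [dist_self_add_right, norm_smul, hdq.unit, mul_one, Real.norm_eq_abs, abs_of_nonneg hr0]
    calc dist x (q + r • eq) ≤ dist x q + dist q (q + r • eq) := dist_triangle _ _ _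
      _ ≤ ‖y‖ + (L + 1) + r := by rw [h1]; linarith
  have hr1 : r ≤ δ2 / 4 * t := hrt.trans (hmul _ _ hk1)
  have hr2 : r ≤ δf / 4 * t := hrt.trans (hmul _ _ hk2)
  have hq'2 : dist x (q + r • eq) ≤ δ2 * t := by
    have h4 := hmul _ _ hd2
    linarith [h4, hxq', hyt, hLt, hr1, mul_pos hδ2 ht0]
  obtain ⟨⟨ξ', e', hd'⟩, hall'⟩ := hnd t ht3 x ξ e hd hxc (q + r • eq) hq'2
  have hee := hall' ξ' e' hd'
  have hqq : ‖eq - e'‖ ≤ ε / 4 := by
    have h1 : eq - e' = (e - e') - (e - eq) := by abel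
    rw [h1]
    refine (norm_sub_le _ _).trans ?_
    linarith
  have h2 := inner_unit_ge hdq.unit hqq
  have hxeq : x - (q + r • eq) = -y - v - r • eq := by rw [hv]; abel
  have hin : inner ℝ (x - (q + r • eq)) e' = -inner ℝ y e' - inner ℝ v e' - r * inner ℝ eq e' := by
    rw [hxeq, inner_sub_left, inner_sub_left, inner_neg_left, real_inner_smul_left]
  have hyin : inner ℝ y e - ε / 8 * ‖y‖ ≤ inner ℝ y e' := by
    have h3 := inner_dir_le hee (-y)
    rw [inner_neg_left, inner_neg_left, norm_neg] at h3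
    linarith
  have hvin : -(L + 1) ≤ inner ℝ v e' := by
    have := neg_le_inner_of_unit hd'.unit v
    linarith
  have hxn : ‖x - (q + r • eq)‖ ≤ ‖y‖ + (L + 1) + r := by
    rw [← dist_eq_norm]
    exact hxq'
  have hny0 : 0 ≤ ‖y‖ := norm_nonneg y
  have key := hFf t ht2 (q + r • eq) hq' hq'1 ξ' e' hd' (x - (q + r • eq)) (by
    rw [hin]
    have h3 : r * (1 - ε / 4) ≤ r * inner ℝ eq e' := mul_le_mul_of_nonneg_left h2 hr0
    have h4 : ε / 2 * ‖x - (q + r • eq)‖ ≤ ε / 2 * (‖y‖ + (L + 1) + r) :=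
      mul_le_mul_of_nonneg_left hxn (by positivity)
    have h5 : 0 ≤ ε * ‖y‖ := by positivity
    have h6 : 0 ≤ (1 - ε) * r := mul_nonneg (by linarith) hr0
    have h7 : 0 ≤ (1 - ε) * (L + 1) := mul_nonneg (by linarith) (by linarith)
    linarith [hyin, hvin, h3, h4, h5, h6, h7, hy]) (by
    have h4 := hmul _ _ hd3
    linarith [h4, hxn, hyt, hLt, hr2, mul_pos hδf ht0])
  rw [add_sub_cancel] at key
  exact hx key

theorem deep (hFL : T_FL) (hEX : T_EX) (hE0 : T_E0) (hE2 : T_E2) : T_DEEP := by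
  intro N c C t3 U I tn xn hC hG htn hfar hball t x
  have hc := hG.c0
  have hC1 := hG.C0
  obtain ⟨S0, hS0, hS⟩ := big hc C 0
  set T := max C S0 + |t| with hT
  have hTC : C ≤ T := by
    have := le_max_left C S0
    have := abs_nonneg t
    linarith
  have hTS : S0 ≤ T := by
    have := le_max_right C S0
    have := abs_nonneg t
    linarith
  have hTtC : C ≤ T + t := by
    have := le_max_left C S0
    have := neg_abs_le t
    linarith
  have hTtS : S0 ≤ T + t := by
    have := le_max_right C S0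
    have := neg_abs_le t
    linarith
  have hT0 : 0 < T := by linarith
  obtain ⟨Cf, hCf, δf, hδf, Tf, hTf, hFf⟩ := hFL N c C t3 U I hC hG
    (2 + (c * T + C * (1 + √T))) (by positivity) (1 / 2) (by norm_num)
  obtain ⟨δ2, hδ2, T2, hT2, hnd⟩ :=
    near_dir hE0 hE2 (U := U) hc hC (ε4 := 1 / 8) (by norm_num)
  set κ := min δ2 (δf / 2) with hκ
  have hκ0 : 0 < κ := lt_min hδ2 (by positivity)
  have hk1 : κ ≤ δ2 := min_le_left _ _
  have hk2 : κ ≤ δf / 2 := min_le_right _ _
  obtain ⟨δe, hδe, Te, hTe, hEx⟩ := hEX N c C t3 U I hC hG κ hκ0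
  have ev1 := hfar δe hδe
  have ev2 := hfar (c / 2) (by positivity)
  have ev3 := hball (4 * ‖x‖ + 8 / 3 * Cf) (by positivity)
  have ev4 := htn.eventually_ge_atTop
    (max (max (t3 + T) (Tf + T)) (max (max T2 Te) (2 * (‖x‖ + δf * T) / δf)))
  filter_upwards [ev1, ev2, ev3, ev4] with n h1 h2 h3 h4
  have ht1 : t3 + T ≤ tn n := ((le_max_left _ _).trans (le_max_left _ _)).trans h4
  have ht2 : Tf + T ≤ tn n := ((le_max_right _ _).trans (le_max_left _ _)).trans h4
  have ht3 : T2 ≤ tn n :=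
    (((le_max_left _ _).trans (le_max_left _ _)).trans (le_max_right _ _)).trans h4
  have ht4 : Te ≤ tn n :=
    (((le_max_right _ _).trans (le_max_left _ _)).trans (le_max_right _ _)).trans h4
  have ht5 : 2 * (‖x‖ + δf * T) / δf ≤ tn n := ((le_max_right _ _).trans (le_max_right _ _)).trans h4
  rw [div_le_iff₀ hδf] at ht5
  have ht0 : 0 < tn n := lt_of_lt_of_le hTe ht4
  have hmul : ∀ a b : ℝ, a ≤ b → a * tn n ≤ b * tn n := fun a b h =>
    mul_le_mul_of_nonneg_right h ht0.le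
  have hxc : c / 2 * tn n ≤ infDist (xn n) U := by
    have : c - c / 2 = c / 2 := by ring
    rwa [this] at h2
  have hxI : xn n ∈ I (tn n) := h3 (mem_closedBall_self (by positivity))
  obtain ⟨ξ, e, hd⟩ := hE0 N U (xn n) (lt_of_lt_of_le (by positivity) hxc)
  obtain ⟨r, hr0, hrt, hq, hq1⟩ := hEx (tn n) ht4 (xn n) hxI h1 ξ e hd
  have hdist : dist (xn n) (xn n + r • e) = r := by
    rw [dist_self_add_right, norm_smul, hd.unit, mul_one, Real.norm_eq_abs, abs_of_nonneg hr0]
  have hrR : 4 * ‖x‖ + 8 / 3 * Cf < r := by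
    by_contra hcon
    push Not at hcon
    apply hq
    apply h3
    rw [mem_closedBall, dist_comm, hdist]
    exact hcon
  obtain ⟨⟨ξ', e', hd'⟩, hall⟩ := hnd (tn n) ht3 (xn n) ξ e hd hxc (xn n + r • e) (by
    rw [hdist]
    exact hrt.trans (hmul _ _ hk1))
  have hee := hall ξ' e' hd'
  have hun := inner_unit_ge hd.unit hee
  -- `q` is not ignited at the earlier time
  have hqT : xn n + r • e ∉ I (tn n - T) := by
    intro hcon
    have h5 := hG.expd (tn n - T) (by linarith) T hTC _ hcon (xn n + r • e) (by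
      rw [dist_self]
      have := hS T hTS
      linarith)
    rw [sub_add_cancel] at h5
    exact hq h5
  have hqL : infDist (xn n + r • e) (I (tn n - T)) ≤ 2 + (c * T + C * (1 + √T)) := by
    obtain ⟨p, hp, hpd⟩ := (infDist_lt_iff (hG.ne (tn n) (by linarith))).mp
      (show infDist (xn n + r • e) (I (tn n)) < 2 by linarith)
    have hp2 : p ∈ I (tn n - T + T) := by rwa [sub_add_cancel]
    obtain ⟨p', hp', hpp⟩ := hG.back (tn n - T) (by linarith) T hT0.le p hp2
    calc infDist (xn n + r • e) (I (tn n - T)) ≤ dist (xn n + r • e) p' := infDist_le_dist_of_mem hp'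
      _ ≤ dist (xn n + r • e) p + dist p p' := dist_triangle _ _ _
      _ ≤ 2 + (c * T + C * (1 + √T)) := by
        rw [dist_comm p p']
        linarith
  have hny : ‖x - r • e‖ ≤ ‖x‖ + r := by
    refine (norm_sub_le _ _).trans ?_
    rw [norm_smul, hd.unit, mul_one, Real.norm_eq_abs, abs_of_nonneg hr0]
  have hin : inner ℝ (x - r • e) e' = inner ℝ x e' - r * inner ℝ e e' := by
    rw [inner_sub_left, real_inner_smul_left]
  have hxe := inner_le_of_unit hd'.unit x
  have key := hFf (tn n - T) (by linarith) (xn n + r • e) hqT hqL ξ' e' hd' (x - r • e) (by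
    rw [hin]
    have h5 : r * (1 - 1 / 8) ≤ r * inner ℝ e e' := mul_le_mul_of_nonneg_left hun hr0
    linarith) (by
    have h5 : r ≤ δf / 2 * tn n := hrt.trans (hmul _ _ hk2)
    have h6 : δf * (tn n - T) = δf * tn n - δf * T := by ring
    rw [h6]
    linarith)
  have hxy : xn n + r • e + (x - r • e) = xn n + x := by abel
  rw [hxy] at key
  have h5 := hG.expd (tn n - T) (by linarith) (T + t) hTtC _ key (xn n + x) (by
    rw [dist_self]
    have := hS (T + t) hTtS
    linarith)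
  have h6 : tn n - T + (T + t) = tn n + t := by ring
  rwa [h6] at h5

theorem if1 (hBH : T_BH) (hE0 : T_E0) (hE2 : T_E2) : T_IF1 := by
  intro N c C t3 η η1 L R0 U u w tn xn qn ξn en e hC hG hTl hR0 hη1 hηη htn hlim hdir hen hq hL
    ε hε
  have hc := hG.c0
  have hC1 := hG.C0
  have hL0 : 0 ≤ L := dist_nonneg.trans (hL 0)
  set L1 := max 0 (2 / c * Real.log (C / η1)) with hL1
  obtain ⟨C', hC', δ, hδ, T2, hT2, hBH⟩ := hBH N c C t3 U (ign u η R0) hC hG L1
    (le_max_left _ _) (ε / 2) (by positivity)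
  obtain ⟨δ2, hδ2, T2', hT2', hnd⟩ :=
    near_dir hE0 hE2 (U := U) hc hC (ε4 := ε / 4) (by positivity)
  obtain ⟨To, hTo, hOU⟩ := outu N c C t3 U (ign u η R0) hG (min (δ / 2) (c / 2))
    (lt_min (by positivity) (by positivity))
  refine ⟨C', hC', fun t x y hw hy => ?_⟩
  have l1 := LimAt.pt hlim t x
  have l2 := LimAt.pt hlim t (x + y)
  have ev1 := l1.eventually (lt_mem_nhds hw)
  have ev2 : ∀ᶠ n in atTop, ‖en n - e‖ ≤ ε / 4 := by
    have h1 : Tendsto (fun n => ‖en n - e‖) atTop (𝓝 0) := by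
      have := (tendsto_iff_norm_sub_tendsto_zero).mp hen
      exact this
    filter_upwards [h1.eventually (gt_mem_nhds (show (0 : ℝ) < ε / 4 by positivity))] with n hn
    exact hn.le
  have ev3 := htn.eventually_ge_atTop (max (max (t3 - t) (T2 - t)) (max (max T2' To)
    (max (max (2 / δ * (L + ‖x‖ + |(c - δ) * t|)) ((L + ‖x‖) / δ2)) (‖y‖ / δ - t))))
  refine le_trans (by linarith : 1 - η1 ≤ 1 - η) ?_
  apply ge_of_tendsto l2
  filter_upwards [ev1, ev2, ev3] with n h1 h2 h3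
  have s1 : t3 - t ≤ tn n := ((le_max_left _ _).trans (le_max_left _ _)).trans h3
  have s2 : T2 - t ≤ tn n := ((le_max_right _ _).trans (le_max_left _ _)).trans h3
  have s3 : T2' ≤ tn n :=
    (((le_max_left _ _).trans (le_max_left _ _)).trans (le_max_right _ _)).trans h3
  have s4 : To ≤ tn n :=
    (((le_max_right _ _).trans (le_max_left _ _)).trans (le_max_right _ _)).trans h3
  have s5 : 2 / δ * (L + ‖x‖ + |(c - δ) * t|) ≤ tn n :=
    ((((le_max_left _ _).trans (le_max_left _ _)).trans (le_max_right _ _)).trans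
      (le_max_right _ _)).trans h3
  have s6 : (L + ‖x‖) / δ2 ≤ tn n :=
    ((((le_max_right _ _).trans (le_max_left _ _)).trans (le_max_right _ _)).trans
      (le_max_right _ _)).trans h3
  have s7 : ‖y‖ / δ - t ≤ tn n :=
    (((le_max_right _ _).trans (le_max_right _ _)).trans (le_max_right _ _)).trans h3
  have ht0 : 0 < tn n := lt_of_lt_of_le hTo s4
  have hqU := hOU (tn n) s4 (qn n) (hq n)
  have hmul : ∀ a b : ℝ, a ≤ b → a * tn n ≤ b * tn n := fun a b h =>
    mul_le_mul_of_nonneg_right h ht0.le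
  have hqc : c / 2 * tn n ≤ infDist (qn n) U :=
    (hmul _ _ (by linarith [min_le_right (δ / 2) (c / 2)])).trans hqU
  have hqd : (c - δ / 2) * tn n ≤ infDist (qn n) U :=
    (hmul _ _ (by linarith [min_le_left (δ / 2) (c / 2)])).trans hqU
  have hqX : dist (qn n) (xn n + x) ≤ L + ‖x‖ := by
    calc dist (qn n) (xn n + x) ≤ dist (qn n) (xn n) + dist (xn n) (xn n + x) :=
          dist_triangle _ _ _
      _ ≤ L + ‖x‖ := by
        rw [dist_self_add_right]
        linarith [hL n]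
  have hs6 : L + ‖x‖ ≤ δ2 * tn n := by
    rw [div_le_iff₀ hδ2] at s6
    linarith
  obtain ⟨⟨ξ', e', hd'⟩, hall⟩ := hnd (tn n) s3 (qn n) (ξn n) (en n) (hdir n) hqc (xn n + x)
    (hqX.trans hs6)
  have hee := hall ξ' e' hd'
  have hee2 : ‖e - e'‖ ≤ ε / 2 := by
    have h4 : e - e' = (en n - e') - (en n - e) := by abel
    rw [h4]
    refine (norm_sub_le _ _).trans ?_
    linarith
  have hXU : (c - δ) * (tn n + t) ≤ infDist (xn n + x) U := by
    have h4 : infDist (qn n) U ≤ infDist (xn n + x) U + dist (qn n) (xn n + x) :=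
      infDist_le_infDist_add_dist
    have h5 : L + ‖x‖ + |(c - δ) * t| ≤ δ / 2 * tn n := by
      have h6 : δ / 2 * (2 / δ * (L + ‖x‖ + |(c - δ) * t|)) = L + ‖x‖ + |(c - δ) * t| := by
        field_simp
      rw [← h6]
      exact mul_le_mul_of_nonneg_left s5 (by positivity)
    have h7 := le_abs_self ((c - δ) * t)
    linarith [h4, h5, h7, hqd, hqX]
  have hXL : infDist (xn n + x) (ign u η R0 (tn n + t)) ≤ L1 := by
    have h4 := hTl (tn n + t) (by linarith) (xn n + x)
    have h5 : η1 < C * Real.exp (-(c / 2 * infDist (xn n + x) (ign u η R0 (tn n + t)))) :=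
      lt_of_lt_of_le h1 h4
    have h6 : η1 / C < Real.exp (-(c / 2 * infDist (xn n + x) (ign u η R0 (tn n + t)))) := by
      rw [div_lt_iff₀ (by linarith)]
      linarith
    have h7 := (Real.lt_log_iff_exp_lt (show (0 : ℝ) < C / η1 by positivity)).mpr
      (show Real.exp (c / 2 * infDist (xn n + x) (ign u η R0 (tn n + t))) < C / η1 by
        rw [Real.exp_neg] at h6
        have h8 := Real.exp_pos (c / 2 * infDist (xn n + x) (ign u η R0 (tn n + t)))
        rw [lt_inv_comm₀ (by positivity) h8, inv_div] at h6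
        exact h6)
    refine le_trans ?_ (le_max_right _ _)
    have h9 : infDist (xn n + x) (ign u η R0 (tn n + t)) =
        2 / c * (c / 2 * infDist (xn n + x) (ign u η R0 (tn n + t))) := by
      field_simp
    rw [h9]
    exact mul_le_mul_of_nonneg_left h7.le (by positivity)
  have hye := inner_dir_le hee2 y
  have key := hBH (tn n + t) (by linarith) (xn n + x) hXL hXU ξ' e' hd' y (by linarith) (by
    have h4 : ‖y‖ / δ ≤ tn n + t := by linarith
    rw [div_le_iff₀ hδ] at h4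
    linarith)
  have h4 := key (xn n + x + y) (mem_closedBall_self hR0.le)
  rwa [add_assoc] at h4

end Pool.Agent.H62.RD
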