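import Pool.Agent.H62.RD.Base

/-!
# Module TW: distance to the ignited set at earlier times
-/

open MeasureTheory Set Filter Topology Metric

namespace Pool.Agent.H62.RD

open Pool.Agent.H91.RD

theorem inner_le_of_unit {N : ℕ} {e : E N} (he : ‖e‖ = 1) (v : E N) : inner ℝ v e ≤ ‖v‖ := by
  have := real_inner_le_norm v e
  rwa [he, mul_one] at this

theorem neg_le_inner_of_unit {N : ℕ} {e : E N} (he : ‖e‖ = 1) (v : E N) :
    -‖v‖ ≤ inner ℝ v e := by
  have := inner_le_of_unit he (-v)
  rw [inner_neg_left, norm_neg] at this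
  linarith

theorem tw (hFR : T_FR) : T_TW := by
  intro N c C t3 U I hC hG L hL ε hε
  have hc := hG.c0
  have hC1 := hG.C0
  -- the parameter `ε'`
  obtain ⟨ε', hε', h2ε, h2c⟩ : ∃ ε' > 0, 2 * ε' ≤ ε ∧ 2 * ε' * c ≤ ε / 2 := by
    refine ⟨min (ε / 2) (ε / (4 * c)), lt_min (by positivity) (by positivity), ?_, ?_⟩
    · have := min_le_left (ε / 2) (ε / (4 * c))
      linarith
    · have h1 := min_le_right (ε / 2) (ε / (4 * c))
      have h2 : 2 * (ε / (4 * c)) * c = ε / 2 := by
        field_simp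
        ring
      calc 2 * min (ε / 2) (ε / (4 * c)) * c ≤ 2 * (ε / (4 * c)) * c := by
            apply mul_le_mul_of_nonneg_right _ hc.le
            linarith
        _ = ε / 2 := h2
  obtain ⟨Cε, hCε, δ, hδ, T2, hT2, hFR⟩ := hFR N c C t3 U I hC hG 0 le_rfl ε' hε'
  obtain ⟨Ta, hTa, hba⟩ := big hc C 0
  obtain ⟨Tb, hTb, hbb⟩ := big (show 0 < ε / 2 by positivity) C 0
  refine ⟨L + ε' * L + Cε, by positivity, max C (max Ta Tb), by positivity, fun T hT B hB => ?_⟩
  have hTC : C ≤ T := (le_max_left _ _).trans hT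
  have hTa' : Ta ≤ T := ((le_max_left _ _).trans (le_max_right _ _)).trans hT
  have hTb' : Tb ≤ T := ((le_max_right _ _).trans (le_max_right _ _)).trans hT
  have ha := hba T hTa'
  have hb := hbb T hTb'
  rw [zero_add] at ha hb
  have hTpos : 0 < T := by linarith
  refine ⟨max T2 (max (t3 + T) ((2 * B + 2 * (c * T) + L) / δ)),
    lt_of_lt_of_le hT2 (le_max_left _ _), ?_⟩
  intro t ht x q hq hqx ξ e hdir y hy
  have ht2 : T2 ≤ t := (le_max_left _ _).trans ht
  have ht3 : t3 + T ≤ t := ((le_max_left _ _).trans (le_max_right _ _)).trans ht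
  have ht4 : (2 * B + 2 * (c * T) + L) / δ ≤ t :=
    ((le_max_right _ _).trans (le_max_right _ _)).trans ht
  rw [div_le_iff₀ hδ] at ht4
  have hunit := hdir.unit
  rw [le_infDist (hG.ne (t - T) (by linarith))]
  intro p hp
  have hsq : 0 ≤ C * √T := mul_nonneg (by linarith) (Real.sqrt_nonneg _)
  have hye := inner_le_of_unit hunit y
  set D := dist (x + y) p with hD
  have hD0 : 0 ≤ D := dist_nonneg
  by_cases hbig : B + c * T ≤ D
  · have h1 : 0 ≤ ε * (‖y‖ + T) := by positivity
    have h2 : 0 < L + ε' * L + Cε := by positivity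
    linarith
  push Not at hbig
  have hpq : ‖p - q‖ ≤ D + ‖y‖ + L := by
    have h1 : p - q = -((x + y) - p) + y + (x - q) := by abel
    have h2 : ‖x - q‖ ≤ L := by
      rw [← dist_eq_norm, dist_comm]
      exact hqx
    calc ‖p - q‖ = ‖-((x + y) - p) + y + (x - q)‖ := by rw [← h1]
      _ ≤ ‖-((x + y) - p)‖ + ‖y‖ + ‖x - q‖ := norm_add₃_le
      _ ≤ D + ‖y‖ + L := by
        rw [norm_neg, hD, dist_eq_norm]
        linarith
  set m : ℝ := c * T - C * √T with hm
  have hm0 : 0 ≤ m := by linarith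
  have hp' : p + m • e ∈ I t := by
    have h1 := hG.expd (t - T) (by linarith) T hTC p hp (p + m • e) (by
      rw [dist_self_add_right, norm_smul, hunit, mul_one, Real.norm_eq_abs, abs_of_nonneg hm0])
    rwa [sub_add_cancel] at h1
  have hnorm : ‖p + m • e - q‖ ≤ ‖p - q‖ + m := by
    have h1 : p + m • e - q = (p - q) + m • e := by abel
    rw [h1]
    refine (norm_add_le _ _).trans ?_
    rw [norm_smul, hunit, mul_one, Real.norm_eq_abs, abs_of_nonneg hm0]
  have hin : inner ℝ (p + m • e - q) e = inner ℝ (p - q) e + m := by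
    have h1 : p + m • e - q = (p - q) + m • e := by abel
    rw [h1, inner_add_left, real_inner_smul_left, real_inner_self_eq_norm_sq, hunit]
    ring
  have hlt : inner ℝ (p + m • e - q) e < ε' * ‖p + m • e - q‖ + Cε := by
    by_contra hcon
    push Not at hcon
    have h1 := hFR t ht2 q hq ξ e hdir (p + m • e - q) hcon (by
      calc ‖p + m • e - q‖ ≤ ‖p - q‖ + m := hnorm
        _ ≤ D + ‖y‖ + L + m := by linarith
        _ ≤ 2 * B + 2 * (c * T) + L := by linarith
        _ ≤ δ * t := by linarith)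
    rw [add_sub_cancel, infDist_zero_of_mem hp'] at h1
    exact lt_irrefl _ h1
  have h5 : inner ℝ (p - q) e < -m + ε' * (D + ‖y‖ + L + c * T) + Cε := by
    have h6 : ε' * ‖p + m • e - q‖ ≤ ε' * (D + ‖y‖ + L + c * T) := by
      apply mul_le_mul_of_nonneg_left _ hε'.le
      linarith
    linarith
  have h7 : inner ℝ (x + y - p) e ≤ D := by
    rw [hD, dist_eq_norm]
    exact inner_le_of_unit hunit _
  have h8 : inner ℝ (x + y - p) e = inner ℝ (x - q) e + inner ℝ y e - inner ℝ (p - q) e := by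
    rw [← inner_add_left, ← inner_sub_left]
    congr 1
    abel
  have h9 : -L ≤ inner ℝ (x - q) e := by
    have h1 := neg_le_inner_of_unit hunit (x - q)
    have h2 : ‖x - q‖ ≤ L := by
      rw [← dist_eq_norm, dist_comm]
      exact hqx
    linarith
  set X := inner ℝ y e + c * T with hX
  have hXle : X ≤ ‖y‖ + c * T := by linarith
  set R := X - C * √T - ε' * (‖y‖ + c * T) - (L + ε' * L + Cε) with hR
  have h10 : R ≤ (1 + ε') * D := by
    have h1 : (1 + ε') * D = D + ε' * D := by ring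
    have h2 : ε' * (D + ‖y‖ + L + c * T) = ε' * D + ε' * (‖y‖ + c * T) + ε' * L := by ring
    linarith
  have hn : 0 ≤ ‖y‖ := norm_nonneg y
  have h11 : X - ε * (‖y‖ + T) - (L + ε' * L + Cε) ≤ R - ε' * (‖y‖ + c * T) := by
    have h1 : ε' * (‖y‖ + c * T) + ε' * (‖y‖ + c * T) = 2 * ε' * ‖y‖ + 2 * ε' * c * T := by ring
    have h2 : 2 * ε' * ‖y‖ ≤ ε * ‖y‖ := mul_le_mul_of_nonneg_right h2ε hn
    have h3 : 2 * ε' * c * T ≤ ε / 2 * T := mul_le_mul_of_nonneg_right h2c hTpos.le
    have h4 : ε * (‖y‖ + T) = ε * ‖y‖ + ε / 2 * T + ε / 2 * T := by ring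
    linarith
  show inner ℝ y e + c * T - ε * (‖y‖ + T) - (L + ε' * L + Cε) ≤ D
  rw [← hX]
  have h12 : 0 ≤ ε' * (‖y‖ + c * T) := by positivity
  rcases le_total R 0 with h13 | h13
  · linarith
  · have h14 : R - ε' * R ≤ D := by
      have h1 : (1 - ε') * R ≤ (1 - ε') * R + ε' ^ 2 * R := by
        have : 0 ≤ ε' ^ 2 * R := by positivity
        linarith
      by_contra hcon
      push Not at hcon
      have h2 : (1 + ε') * D < (1 + ε') * (R - ε' * R) :=
        mul_lt_mul_of_pos_left hcon (by linarith)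
      have h3 : (1 + ε') * (R - ε' * R) = R - ε' ^ 2 * R := by ring
      have h4 : 0 ≤ ε' ^ 2 * R := by positivity
      linarith
    have h15 : ε' * R ≤ ε' * (‖y‖ + c * T) := by
      apply mul_le_mul_of_nonneg_left _ hε'.le
      have h1 : 0 < L + ε' * L + Cε := by positivity
      linarith
    linarith

end Pool.Agent.H62.RD
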